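import Pool.Agent.Work.MP_cb380d_en.Final

/-!
# MP_cb380d_lc: one-one, length-increasing reductions with advice and min-entropy

Model of computation: `Pool/Agent/Work/OracleCmd_h91/Cmd.lean` (programs on stacks of bits);
`PolyFun`, `Karp`, `InNP`: `Pool/Agent/Work/MP_cb380d_h91/Model.lean`; `GoodOn`, `AdviceOneLi`,
`EntropyReduces`: `Pool/Agent/Work/MP_cb380d_en/Defs.lean`.
-/

namespace Pool.Agent.Results.MP_cb380d_lc.EntropyReductions

open Pool.IC Pool.EN

/-- Relative to every oracle `B` (for `B = ∅`: without oracle) and for every set `A` the following
are equivalent: every set in NP reduces to `A` by one-one, length-increasing functions in polynomial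
time with (random) advice; every set in NP reduces to `A` by a randomized many-one reduction of
min-entropy at least `n - c` on the inputs of length `n`; for some `k` every set in NP reduces to
`A` by a randomized many-one reduction of min-entropy at least about `n ^ (1 / k)` on the inputs of
length `n`. One-one Karp reductions are reductions of the second kind. -/
theorem result (B A : Set Str) :
    List.TFAE [
      ∀ L : Set Str, InNP B L → AdviceOneLi B L A,
      ∀ L : Set Str, InNP B L → EntropyReduces 1 B L A,
      ∃ k : ℕ, ∀ L : Set Str, InNP B L → EntropyReduces k B L A] ∧
    ∀ (L : Set Str) (f : Str → Str), Karp B L A f → Function.Injective f →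
      EntropyReduces 1 B L A :=
  ⟨equiv B A, fun _ _ hf hinj => oneOne_entropy hf hinj⟩

end Pool.Agent.Results.MP_cb380d_lc.EntropyReductions
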