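import Pool.Agent.Work.MP_cb380d_h91.Main

/-!
# MP_cb380d_lc: one-one complete sets which are not complete under honest reductions

The model of computation is defined in `Pool/Agent/Work/OracleCmd_h91/Cmd.lean`, the classes and
reductions in `Pool/Agent/Work/MP_cb380d_h91/Model.lean`.
-/

namespace Pool.Agent.Results.MP_cb380d_lc.OneOneNotHonest

open Pool.IC

/-- There is an oracle `B` with P different from UP relative to `B`, and there are sets `A` and
`K`, both complete for NP relative to `B` under one-one polynomial-time many-one reductions, such
that no polynomial-time many-one reduction of `K` to `A` relative to `B` is honest; in particular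
none is length-increasing, and `A` and `K` are not pseudo p-isomorphic relative to `B`. -/
theorem result : ∃ B A K : Set Str,
    OneOneComplete B A ∧ OneOneComplete B K ∧
    (∀ f, Karp B K A f → ¬ Honest f ∧ ¬ ∀ x, x.length < (f x).length) ∧
    ∃ E : Set Str, InUP1 B E ∧ ¬ InP B E := by
  obtain ⟨B, A, K, hA, hK, hf, hE⟩ := main
  refine ⟨B, A, K, hA, hK, fun f h => ⟨hf f h, fun hinc => hf f h ⟨Polynomial.X, fun x => ?_⟩⟩, hE⟩
  rw [Polynomial.eval_X]
  exact (hinc x).le

end Pool.Agent.Results.MP_cb380d_lc.OneOneNotHonest
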