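import Pool.Agent.Work.MP_cb380d_ro.Final

/-!
# MP_cb380d_lc: all NP-complete sets are pseudo p-isomorphic relative to a random oracle

The model of computation is defined in `Pool/Agent/Work/OracleCmd_h91/Cmd.lean`, the classes and
reductions in `Pool/Agent/Work/MP_cb380d_h91/Model.lean`, the measure `coin` and the oracle
`orc w` in `Pool/Agent/Work/MP_cb380d_ro/Base.lean`.
-/

namespace Pool.Agent.Results.MP_cb380d_lc.RandomOracle

open Pool.IC Pool.RO MeasureTheory

/-- `A` is hard for NP relative to `B` under polynomial-time many-one reductions. -/
def Hard (B A : Set Str) : Prop := ∀ L : Set Str, InNP B L → ∃ f : Str → Str, Karp B L A f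

/-- `L` reduces to `A` by a one-one, length-increasing polynomial-time many-one reduction
relative to `B`. -/
def OneLi (B L A : Set Str) : Prop :=
  ∃ f : Str → Str, Karp B L A f ∧ Function.Injective f ∧ ∀ x : Str, x.length < (f x).length

/-- For almost every oracle `w`, every set in NP relative to `w` reduces to every set that is
NP-hard relative to `w` by a one-one, length-increasing reduction. In particular (take two
NP-complete sets, in both directions) any two sets that are NP-complete relative to `w` are
pseudo p-isomorphic relative to `w`. -/
theorem result : ∀ᵐ w ∂coin, ∀ A : Set Str, Hard (orc w) A →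
    ∀ L : Set Str, InNP (orc w) L → OneLi (orc w) L A :=
  Pool.RO.fin

end Pool.Agent.Results.MP_cb380d_lc.RandomOracle
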