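import Pool.Agent.Work.MP_cb380d_sf.Final

/-!
# MP_cb380d_lc: reductions with simple shadows

Model of computation: `Pool/Agent/Work/OracleCmd_h91/Cmd.lean` (programs on stacks of bits);
`PolyFun`, `Karp`, `InNP`, `Honest`: `Pool/Agent/Work/MP_cb380d_h91/Model.lean`; `PolyF B f`
(polynomial time on the encodings of numbers in unary, pairs and lists):
`Pool/Agent/Work/OracleTyped_h80/Base.lean`; `Strong`, `LowSensitivity`, `BoundedDegree`, `PIso`:
`Pool/Agent/Work/MP_cb380d_ev/Defs.lean`; `IsModPoly`: `Defs2.lean`; `Certificates`: `Defs3.lean`;
`circ`, `cnt`, `ModularCircuits`: `Defs4.lean` (same folder); `Simple`, `Shadow`, `Visible`, `OneLi`,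
`PseudoIso`, `ShadowComplete`, `VisibleComplete`: `Pool/Agent/Work/MP_cb380d_sf/Shadow.lean`.
-/

namespace Pool.Agent.Results.MP_cb380d_lc.SimpleShadows

open Pool.IC Pool.EV Pool.SF

/-- Relative to every oracle `B` (for `B = ∅`: without oracle).  A simple function is a
polynomial-time function of low sensitivity, or with certificates of few parities and polynomials of
bounded degree modulo `m`, or of bounded degree over the field with two elements, or computed by
modular circuits.  A shadow of the reduction `g` of `L` is a simple function `g₀` such that `g z`
determines `g₀ z` and `g₀ z` determines whether `z` is in `L`, with a polynomial bound of the length.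

(1) For every `D` in NP there is `L` in NP such that, whenever `L` reduces to a set `A` by a
polynomial-time many-one reduction `g` with a shadow `g₀`, then `D` reduces to `A` by a one-one,
length-increasing polynomial-time reduction; with a polynomial-time left inverse if `g₀ z` can be
computed from `g z` in polynomial time (for example `g₀ = g`);

(2) any two sets complete for NP under reductions with shadows are pseudo p-isomorphic;

(3) they are p-isomorphic if all the shadows are visible, i.e. computed as in (1);

(4) there is a set `K` in NP to which every set in NP reduces by a reduction such that every output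
symbol is changed by at most one of the one-bit flips of the input, and for all one-one honest
polynomial-time functions `φ` the set `φ(K)` is complete for NP under reductions with shadows. -/
theorem result (B : Set Str) :
    (∀ D : Set Str, InNP B D → ∃ L : Set Str, InNP B L ∧
      ∀ (A : Set Str) (g g₀ : Str → Str), Karp B L A g → Shadow B L g g₀ →
        (∃ f : Str → Str, OneLi B D A f) ∧ (Visible B g g₀ → ∃ f : Str → Str, Strong B D A f)) ∧
    (∀ A A' : Set Str, ShadowComplete B A → ShadowComplete B A' → PseudoIso B A A') ∧
    (∀ A A' : Set Str, VisibleComplete B A → VisibleComplete B A' → PIso B A A') ∧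
    ∃ K : Set Str, InNP B K ∧
      (∀ L : Set Str, InNP B L → ∃ g : Str → Str, Karp B L K g ∧
        ∀ (z : Str) (b : ℕ), ((Finset.range z.length).filter fun v =>
          (g (z.modify v not))[b]? ≠ (g z)[b]?).card ≤ 1) ∧
      ∀ φ : Str → Str, PolyFun B φ → Function.Injective φ → Honest φ →
        ShadowComplete B (φ '' K) :=
  Pool.SF.final B

end Pool.Agent.Results.MP_cb380d_lc.SimpleShadows
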